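import Pool.Agent.Lib.MP_d71b33_lc_h91.Sys

/-!
# Digits, windows of cores (MP_d71b33_lc, probability part)
-/

namespace Pool.Agent.Bfly

namespace PB

/-! ### Digit boundaries -/

/-- digit boundaries -/
def lv (g n k : ℕ) : ℕ := if k < n / g then g * k else n

theorem lv_zero {g n : ℕ} (hm : 0 < n / g) : lv g n 0 = 0 := by
  simp [lv, hm]

theorem lv_m (g n : ℕ) : lv g n (n / g) = n := by
  simp [lv]

theorem mul_div_le' (g n : ℕ) : g * (n / g) ≤ n := Nat.mul_div_le n g

theorem lt_mul_div_succ' {g : ℕ} (hg : 0 < g) (n : ℕ) : n < g * (n / g) + g := by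
  have := Nat.lt_mul_div_succ n hg
  rwa [Nat.mul_add, Nat.mul_one] at this

theorem lv_lo {g n : ℕ} (k : ℕ) (hk : k < n / g) : lv g n k + g ≤ lv g n (k + 1) := by
  unfold lv
  rw [if_pos hk]
  split_ifs with h
  · rw [Nat.mul_add, Nat.mul_one]
  · have h1 : k + 1 ≤ n / g := hk
    calc g * k + g = g * (k + 1) := by ring
      _ ≤ g * (n / g) := Nat.mul_le_mul_left g h1
      _ ≤ n := mul_div_le' g n

theorem lv_hi {g n : ℕ} (hg : 0 < g) (k : ℕ) (hk : k < n / g) :
    lv g n (k + 1) ≤ lv g n k + 2 * g := by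
  unfold lv
  rw [if_pos hk]
  split_ifs with h
  · rw [Nat.mul_add, Nat.mul_one]; omega
  · have h1 : n / g = k + 1 := by omega
    have h2 := lt_mul_div_succ' hg n
    rw [h1, Nat.mul_add] at h2
    omega

/-- the frame -/
def frame (g n : ℕ) (hg : 5 ≤ g) (hm : 0 < n / g) : Frame n where
  g := g
  m := n / g
  lev := lv g n
  rb k := lv g n k + 1
  sb k := lv g n k + 2
  five_le_g := hg
  m_pos := hm
  lev_zero := lv_zero hm
  lev_m := lv_m g n
  lev_lo := lv_lo
  lev_hi := lv_hi (by omega)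
  rb_lo := fun k _ => by omega
  rb_hi := fun k hk => by have := lv_lo k hk; omega
  sb_lo := fun k _ => by omega
  sb_hi := fun k hk => by have := lv_lo k hk; omega
  rb_ne_sb := fun k _ => by omega

theorem lv_le_n {g n : ℕ} (k : ℕ) : lv g n k ≤ n := by
  unfold lv
  split_ifs with h
  · exact (Nat.mul_le_mul_left g h.le).trans (mul_div_le' g n)
  · exact le_rfl

theorem lv_mono {g n : ℕ} {k l : ℕ} (h : k ≤ l) : lv g n k ≤ lv g n l := by
  unfold lv
  by_cases hl : l < n / g
  · rw [if_pos hl, if_pos (lt_of_le_of_lt h hl)]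
    exact Nat.mul_le_mul_left g h
  · rw [if_neg hl]
    exact lv_le_n k

theorem lv_lt {g n : ℕ} (hg : 0 < g) {k l : ℕ} (h : k < l) (hk : k < n / g) :
    lv g n k < lv g n l := by
  have h1 := lv_lo k hk
  have h2 : lv g n (k + 1) ≤ lv g n l := lv_mono h
  omega

theorem lv_add_le {g n : ℕ} (hg : 0 < g) (k d : ℕ) : lv g n (k + d) ≤ lv g n k + 2 * g * d := by
  induction d with
  | zero => simp
  | succ d ih =>
    by_cases hk : k + d < n / g
    · have := lv_hi hg (k + d) hk
      rw [← Nat.add_assoc, Nat.mul_add, Nat.mul_one]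
      omega
    · have h1 : lv g n (k + (d + 1)) = n := by
        unfold lv; rw [if_neg (by omega)]
      have h2 : lv g n (k + d) = n := by
        unfold lv; rw [if_neg hk]
      rw [h1]
      rw [h2] at ih
      have : 2 * g * d ≤ 2 * g * (d + 1) := Nat.mul_le_mul_left _ (Nat.le_succ d)
      omega

theorem lv_sub_le {g n : ℕ} (hg : 0 < g) {p q W : ℕ} (h : q ≤ p + W) :
    lv g n q - lv g n p ≤ 2 * g * W := by
  have h1 : lv g n q ≤ lv g n (p + W) := lv_mono h
  have h2 := lv_add_le (n := n) hg p W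
  omega

/-! ### Windows of cores -/

/-- The window of the cores of half length `h` generated by cells of digit `k`. -/
def win (m c h k : ℕ) : ℕ × ℕ :=
  if 2 * h * (k / (2 * h)) < (c + 5) * h then (0, (c + 7) * h)
  else if m < 2 * h * (k / (2 * h)) + (c + 7) * h then
    (2 * h * ((m - (c + 7) * h) / (2 * h) + 1) - h, m)
  else (2 * h * (k / (2 * h)) - h, 2 * h * (k / (2 * h)) + 3 * h)

theorem win_congr {m c h k l : ℕ} (hkl : k / (2 * h) = l / (2 * h)) :
    win m c h k = win m c h l := by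
  unfold win
  rw [hkl]

/-- properties of the window -/
structure WinOK (m c h k s e : ℕ) : Prop where
  sk : s ≤ k
  ke : k + 1 ≤ e
  em : e ≤ m
  hs : s = 0 ∨ (s % (2 * h) = h ∧ (c + 4) * h ≤ s ∧ s + h ≤ k)
  he : e = m ∨ (e % (2 * h) = h ∧ e + (c + 4) * h ≤ m ∧ k + h ≤ e)
  len : e ≤ s + (c + 8) * h
  len' : s ≠ 0 → e ≠ m → e ≤ s + 4 * h

theorem mod_aux {h j : ℕ} (hh : 0 < h) : (2 * h * j + h) % (2 * h) = h := by
  rw [Nat.add_mod, Nat.mul_mod_right, Nat.zero_add, Nat.mod_mod]
  exact Nat.mod_eq_of_lt (by omega)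

theorem mod_aux' {h j : ℕ} (hh : 0 < h) (hj : 0 < j) : (2 * h * j - h) % (2 * h) = h := by
  obtain ⟨i, rfl⟩ : ∃ i, j = i + 1 := ⟨j - 1, by omega⟩
  have : 2 * h * (i + 1) - h = 2 * h * i + h := by
    rw [Nat.mul_add, Nat.mul_one]; omega
  rw [this]
  exact mod_aux hh

theorem win_ok {m c h k : ℕ} (hh : 0 < h) (hc : 2 ∣ c) (hk : k < m)
    (hm : (2 * c + 40) * h ≤ m) : WinOK m c h k (win m c h k).1 (win m c h k).2 := by
  have h2h : 0 < 2 * h := by omega
  set j := k / (2 * h) with hj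
  have hk1 : 2 * h * j ≤ k := Nat.mul_div_le k (2 * h)
  have hk2 : k < 2 * h * j + 2 * h := by
    have := Nat.lt_mul_div_succ k h2h
    rwa [Nat.mul_add, Nat.mul_one] at this
  obtain ⟨c', rfl⟩ := hc
  unfold win
  rw [← hj]
  split_ifs with h1 h2
  · -- top
    have h3 : j ≤ c' + 2 := by
      by_contra hcon
      push Not at hcon
      have h4 : c' + 3 ≤ j := hcon
      have h5 : 2 * h * (c' + 3) ≤ 2 * h * j := Nat.mul_le_mul_left _ h4
      have h6 : 2 * h * (c' + 3) = (2 * c' + 5) * h + h := by ring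
      omega
    have h4 : 2 * h * j ≤ 2 * h * (c' + 2) := Nat.mul_le_mul_left _ h3
    have h5 : 2 * h * (c' + 2) + 2 * h + h = (2 * c' + 7) * h := by ring
    have h6 : (2 * (2 * c') + 40) * h = (2 * c' + 7) * h + (2 * c' + 4) * h + 29 * h := by ring
    have h7 : (2 * c' + 8) * h = (2 * c' + 7) * h + h := by ring
    refine ⟨Nat.zero_le _, ?_, ?_, Or.inl rfl, Or.inr ⟨?_, ?_, ?_⟩, ?_, fun h0 => absurd rfl h0⟩
    · change k + 1 ≤ (2 * c' + 7) * h
      omega
    · change (2 * c' + 7) * h ≤ m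
      omega
    · change ((2 * c' + 7) * h) % (2 * h) = h
      have : (2 * c' + 7) * h = 2 * h * (c' + 3) + h := by ring
      rw [this]
      exact mod_aux hh
    · change (2 * c' + 7) * h + (2 * c' + 4) * h ≤ m
      omega
    · change k + h ≤ (2 * c' + 7) * h
      omega
    · change (2 * c' + 7) * h ≤ 0 + (2 * c' + 8) * h
      omega
  · -- bottom
    set t := (m - (2 * c' + 7) * h) / (2 * h) with ht
    have t1 : 2 * h * t ≤ m - (2 * c' + 7) * h := Nat.mul_div_le _ _
    have t2 : m - (2 * c' + 7) * h < 2 * h * t + 2 * h := by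
      have := Nat.lt_mul_div_succ (m - (2 * c' + 7) * h) h2h
      rwa [Nat.mul_add, Nat.mul_one] at this
    have h6 : (2 * (2 * c') + 40) * h = (2 * c' + 7) * h + (2 * c' + 4) * h + 29 * h := by ring
    have h7 : (2 * c' + 8) * h = (2 * c' + 7) * h + h := by ring
    have h8 : 2 * h * (t + 1) = 2 * h * t + 2 * h := by ring
    have h9 : t + 1 ≤ j := by
      by_contra hcon
      push Not at hcon
      have h10 : j ≤ t := by omega
      have h11 : 2 * h * j ≤ 2 * h * t := Nat.mul_le_mul_left _ h10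
      omega
    have h10 : 2 * h * (t + 1) ≤ 2 * h * j := Nat.mul_le_mul_left _ h9
    refine ⟨?_, ?_, le_rfl, Or.inr ⟨?_, ?_, ?_⟩, Or.inl rfl, ?_, fun _ h0 => absurd rfl h0⟩
    · change 2 * h * (t + 1) - h ≤ k
      omega
    · change k + 1 ≤ m
      omega
    · exact mod_aux' hh (Nat.succ_pos t)
    · change (2 * c' + 4) * h ≤ 2 * h * (t + 1) - h
      omega
    · change 2 * h * (t + 1) - h + h ≤ k
      omega
    · change m ≤ 2 * h * (t + 1) - h + (2 * c' + 8) * h
      omega
  · -- middle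
    have h5 : (2 * c' + 5) * h = (2 * c' + 4) * h + h := by ring
    have h7 : (2 * c' + 8) * h = (2 * c' + 7) * h + h := by ring
    have h9 : (2 * c' + 7) * h = (2 * c' + 4) * h + 3 * h := by ring
    have hj0 : 0 < j := by
      rcases Nat.eq_zero_or_pos j with h0 | h0
      · rw [h0] at h1
        simp at h1
        omega
      · exact h0
    refine ⟨?_, ?_, ?_, Or.inr ⟨?_, ?_, ?_⟩, Or.inr ⟨?_, ?_, ?_⟩, ?_, fun _ _ => ?_⟩
    · change 2 * h * j - h ≤ k
      omega
    · change k + 1 ≤ 2 * h * j + 3 * h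
      omega
    · change 2 * h * j + 3 * h ≤ m
      omega
    · exact mod_aux' hh hj0
    · change (2 * c' + 4) * h ≤ 2 * h * j - h
      omega
    · change 2 * h * j - h + h ≤ k
      omega
    · change (2 * h * j + 3 * h) % (2 * h) = h
      have : 2 * h * j + 3 * h = 2 * h * (j + 1) + h := by ring
      rw [this]
      exact mod_aux hh
    · change 2 * h * j + 3 * h + (2 * c' + 4) * h ≤ m
      omega
    · change k + h ≤ 2 * h * j + 3 * h
      omega
    · change 2 * h * j + 3 * h ≤ 2 * h * j - h + (2 * c' + 8) * h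
      omega
    · change 2 * h * j + 3 * h ≤ 2 * h * j - h + 4 * h
      omega

end PB

end Pool.Agent.Bfly
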