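import Pool.Agent.Lib.MP_d71b33_lc_h70.Sparse

/-!
# Witness sets for surviving cells (MP_d71b33_lc)
-/

namespace Pool.Agent.Bfly

namespace PB

open Finset

variable {n : ℕ}

/-! ### Regions -/

/-- radius of the region of a cell of scale `i` -/
def rr (g : ℕ) : ℕ → ℕ
  | 0 => 0
  | i + 1 => rr g i + cR g * hl g i

theorem six_rr (g i : ℕ) : 6 * rr g i ≤ hl g i := by
  induction i with
  | zero => simp [rr]
  | succ i ih =>
    have h1 : hl g (i + 1) = 16 * (cR g * hl g i) := by
      unfold hl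
      rw [pow_succ]
      unfold MM
      ring
    have h2 : hl g i ≤ cR g * hl g i := Nat.le_mul_of_pos_left _ (cR_pos g)
    rw [h1]
    unfold rr
    omega

theorem three_rr (g i : ℕ) : 3 * rr g i + 2 ≤ hl g i := by
  have h1 := six_rr g i
  have h2 := four_le_hl g i
  omega

/-- region of a cell -/
def region (g i : ℕ) (c : Cell n) : Set (Node n) :=
  {v | lv g n (c.1 - rr g i) ≤ v.2.val ∧ v.2.val ≤ lv g n (c.1 + 1 + rr g i) ∧
    AgOut (lv g n (c.1 - rr g i)) (lv g n (c.1 + 1 + rr g i)) v.1 c.2}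

theorem region_nested {g i : ℕ} {c c' : Cell n} {p q : ℕ} (h1 : p ≤ c.1) (h2 : c.1 < q)
    (h3 : q ≤ p + cR g * hl g i) (h4 : p ≤ c'.1) (h5 : c'.1 + 1 ≤ q)
    (h6 : AgOut (lv g n p) (lv g n q) c'.2 c.2) : region g i c' ⊆ region g (i + 1) c := by
  rintro v ⟨h7, h8, h9⟩
  have hr : rr g (i + 1) = rr g i + cR g * hl g i := rfl
  have e1 : lv g n (c.1 - rr g (i + 1)) ≤ lv g n (c'.1 - rr g i) := lv_mono (by omega)
  have e2 : lv g n (c'.1 + 1 + rr g i) ≤ lv g n (c.1 + 1 + rr g (i + 1)) := lv_mono (by omega)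
  have e3 : lv g n (c.1 - rr g (i + 1)) ≤ lv g n p := lv_mono (by omega)
  have e4 : lv g n q ≤ lv g n (c.1 + 1 + rr g (i + 1)) := lv_mono (by omega)
  exact ⟨e1.trans h7, h8.trans e2, (h9.mono e1 e2).trans (h6.mono e3 e4)⟩

/-! ### Conflicts -/

/-- the core of scale `i` with window number `j` and row `x` -/
def corej (g i j : ℕ) (x : Rw n) : Core n := core g i (2 * hl g i * j, x)

theorem core_eq_corej (g i : ℕ) (c : Cell n) :
    core g i c = corej g i (c.1 / (2 * hl g i)) c.2 := by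
  have h1 : win (n / g) (csm g) (hl g i) c.1 =
      win (n / g) (csm g) (hl g i) (2 * hl g i * (c.1 / (2 * hl g i))) := by
    apply win_congr
    have := hl_pos g i
    rw [Nat.mul_div_cancel_left _ (by omega)]
  unfold corej core
  simp only
  rw [h1]

theorem wr_congr_out {p q : ℕ} {x y : Rw n} (h : AgOut p q x y) (v : Rw n) :
    wr p q x v = wr p q y v := by
  funext j
  unfold wr
  split_ifs with hj
  · rfl
  · exact h j (by omega)

theorem core_congr {g i : ℕ} {c : Cell n} {x : Rw n}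
    (h : AgOut (lv g n (core g i c).s) (lv g n (core g i c).e) c.2 x) :
    core g i c = core g i (c.1, x) := by
  have h' : AgOut (lv g n (win (n / g) (csm g) (hl g i) c.1).1)
    (lv g n (win (n / g) (csm g) (hl g i) c.1).2) c.2 x := h
  unfold core
  simp only
  rw [wr_congr_out h']

theorem conflict {g i top : ℕ} (hg : 0 < g) (hi : i ≤ top)
    (htop : 4 * cbg g * hl g top ≤ n / g) {c c' : Cell n} (hc : c.1 < n / g) (hc' : c'.1 < n / g)
    {v : Node n} (hv : v ∈ region g i c) (hv' : v ∈ region g i c') :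
    core g i c' = corej g i (c.1 / (2 * hl g i) - 1) c.2 ∨
    core g i c' = corej g i (c.1 / (2 * hl g i)) c.2 ∨
    core g i c' = corej g i (c.1 / (2 * hl g i) + 1) c.2 := by
  obtain ⟨a1, a2, a3⟩ := hv
  obtain ⟨b1, b2, b3⟩ := hv'
  have hr := three_rr g i
  have hh := hl_pos g i
  have d1 : c.1 ≤ c'.1 + 1 + 2 * rr g i := by
    by_contra hcon
    have h1 : lv g n (c'.1 + 1 + rr g i) < lv g n (c.1 - rr g i) :=
      lv_lt hg (by omega) (by omega)
    omega
  have d2 : c'.1 ≤ c.1 + 1 + 2 * rr g i := by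
    by_contra hcon
    have h1 : lv g n (c.1 + 1 + rr g i) < lv g n (c'.1 - rr g i) :=
      lv_lt hg (by omega) (by omega)
    omega
  have hw := core_win hi htop hc'
  have h1 : AgOut (lv g n (core g i c').s) (lv g n (core g i c').e) c'.2 c.2 := by
    have s1 : (core g i c').s ≤ c'.1 - rr g i := by
      rcases hw.hs with h | ⟨-, -, h⟩ <;> omega
    have s2 : (core g i c').s ≤ c.1 - rr g i := by
      rcases hw.hs with h | ⟨-, -, h⟩ <;> omega
    have e1 : lv g n (c'.1 + 1 + rr g i) ≤ lv g n (core g i c').e := by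
      rcases hw.he with h | ⟨-, -, h⟩
      · rw [h, lv_m]
        exact lv_le_n _
      · exact lv_mono (by omega)
    have e2 : lv g n (c.1 + 1 + rr g i) ≤ lv g n (core g i c').e := by
      rcases hw.he with h | ⟨-, -, h⟩
      · rw [h, lv_m]
        exact lv_le_n _
      · exact lv_mono (by omega)
    exact (b3.mono (lv_mono s1) e1).symm.trans (a3.mono (lv_mono s2) e2)
  have h2 : core g i c' = corej g i (c'.1 / (2 * hl g i)) c.2 := by
    rw [core_congr h1, core_eq_corej]
  rw [h2]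
  have j1 : c'.1 / (2 * hl g i) ≤ c.1 / (2 * hl g i) + 1 := by
    rw [← Nat.add_div_right _ (by omega)]
    exact Nat.div_le_div_right (by omega)
  have j2 : c.1 / (2 * hl g i) ≤ c'.1 / (2 * hl g i) + 1 := by
    rw [← Nat.add_div_right _ (by omega)]
    exact Nat.div_le_div_right (by omega)
  have j3 : c'.1 / (2 * hl g i) = c.1 / (2 * hl g i) - 1 ∨
      c'.1 / (2 * hl g i) = c.1 / (2 * hl g i) ∨
      c'.1 / (2 * hl g i) = c.1 / (2 * hl g i) + 1 := by
    generalize c'.1 / (2 * hl g i) = a at j1 j2 ⊢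
    generalize c.1 / (2 * hl g i) = b at j1 j2 ⊢
    omega
  rcases j3 with h | h | h
  · left; rw [h]
  · right; left; rw [h]
  · right; right; rw [h]

/-- selection of pairwise non-conflicting elements -/
theorem select {α : Type*} [DecidableEq α] (R : α → α → Prop) (hR : ∀ a b, R a b → R b a)
    (k : ℕ) : ∀ s : Finset α, 3 * k ≤ s.card →
      (∀ a ∈ s, ∃ B : Finset α, B.card ≤ 3 ∧ a ∈ B ∧ ∀ b ∈ s, R a b → b ∈ B) →
      ∃ t ⊆ s, t.card = k ∧ ∀ a ∈ t, ∀ b ∈ t, a ≠ b → ¬ R a b := by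
  induction k with
  | zero =>
    intro s _ _
    exact ⟨∅, empty_subset _, rfl, by simp⟩
  | succ k ih =>
    intro s hs hB
    have hne : s.Nonempty := by
      rw [← card_pos]
      omega
    obtain ⟨a, ha⟩ := hne
    obtain ⟨B, hB3, haB, hBR⟩ := hB a ha
    have h1 : 3 * k ≤ (s \ B).card := by
      have := le_card_sdiff B s
      omega
    obtain ⟨t, ht, htk, htR⟩ := ih (s \ B) h1 (by
      intro b hb
      obtain ⟨B', h2, h3, h4⟩ := hB b (mem_sdiff.1 hb).1
      exact ⟨B', h2, h3, fun d hd => h4 d (mem_sdiff.1 hd).1⟩)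
    have hat : a ∉ t := fun h => (mem_sdiff.1 (ht h)).2 haB
    refine ⟨insert a t, ?_, ?_, ?_⟩
    · intro b hb
      rcases mem_insert.1 hb with rfl | hb
      · exact ha
      · exact (mem_sdiff.1 (ht hb)).1
    · rw [card_insert_of_notMem hat, htk]
    · have key : ∀ b ∈ t, ¬ R a b := by
        intro b hb hab
        exact (mem_sdiff.1 (ht hb)).2 (hBR b (mem_sdiff.1 (ht hb)).1 hab)
      intro b hb d hd hbd hRbd
      rcases mem_insert.1 hb with hb | hb
      · rw [hb] at hRbd hbd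
        rcases mem_insert.1 hd with hd | hd
        · exact hbd hd.symm
        · exact key d hd hRbd
      · rcases mem_insert.1 hd with hd | hd
        · rw [hd] at hRbd
          exact key b hb (hR _ _ hRbd)
        · exact htR b hb d hd hbd hRbd

/-! ### Counting -/

theorem rows_card (p q : ℕ) (x : Rw n) [DecidablePred fun y : Rw n => AgOut p q y x] :
    (univ.filter fun y : Rw n => AgOut p q y x).card ≤ 2 ^ (q - p) := by
  classical
  let f : (Fin (q - p) → Bool) → Rw n := fun u j =>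
    if h : p ≤ j.val ∧ j.val < q then u ⟨j.val - p, by omega⟩ else x j
  have h1 : (univ.filter fun y : Rw n => AgOut p q y x) ⊆ univ.image f := by
    intro y hy
    rw [mem_filter] at hy
    rw [mem_image]
    refine ⟨fun j => bit y (p + j.val), mem_univ _, ?_⟩
    funext j
    simp only [f]
    split_ifs with h
    · have h2 : p + (j.val - p) = j.val := by omega
      rw [h2, bit_val]
    · exact (hy.2 j (by omega)).symm
  refine (card_le_card h1).trans (card_image_le.trans ?_)
  simp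

theorem levels_card (a b : ℕ) [DecidablePred fun l : Fin (n + 1) => a ≤ l.val ∧ l.val ≤ b] :
    (univ.filter fun l : Fin (n + 1) => a ≤ l.val ∧ l.val ≤ b).card ≤ b + 1 - a := by
  have h1 : (univ.filter fun l : Fin (n + 1) => a ≤ l.val ∧ l.val ≤ b).card ≤
      (Finset.Icc a b).card := by
    refine card_le_card_of_injOn (fun l => l.val) ?_ ?_
    · intro l hl
      have := (mem_filter.1 hl).2
      simp only [coe_Icc, Set.mem_Icc]
      exact this
    · intro l _ l' _ h
      exact Fin.ext h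
  rwa [Nat.card_Icc] at h1

/-- number of elements of a witness set -/
def K1 (g : ℕ) : ℕ := 4 * MM g

theorem K1_pos (g : ℕ) : 0 < K1 g := by
  have := MM_pos g
  unfold K1
  omega

theorem KK_eq (g : ℕ) : KK g = 3 * K1 g := by
  unfold KK K1
  ring

/-- bound for the number of witness sets of scale `i` -/
def Cnt (g : ℕ) : ℕ → ℕ
  | 0 => (2 * g + 1) * 2 ^ (2 * g)
  | i + 1 => (cR g * hl g i) ^ 2 *
      ((cR g * hl g i) * 2 ^ (2 * g * (cR g * hl g i)) * Cnt g i) ^ K1 g

theorem witness_zero {g : ℕ} (hg : 0 < g) (c : Cell n) (hc : c.1 < n / g) :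
    ∃ W : Finset (Finset (Node n)),
      (∀ A ∈ W, A.card = K1 g ^ 0 ∧ (A : Set (Node n)) ⊆ region g 0 c) ∧
      W.card ≤ Cnt g 0 ∧
      ∀ F : Set (Node n), c ∈ SS g F 0 → ∃ A ∈ W, (A : Set (Node n)) ⊆ F := by
  classical
  refine ⟨((univ.filter fun y : Rw n => AgOut (lv g n c.1) (lv g n (c.1 + 1)) y c.2) ×ˢ
    (univ.filter fun l : Fin (n + 1) => lv g n c.1 ≤ l.val ∧ l.val ≤ lv g n (c.1 + 1))).image
      (fun v => ({v} : Finset (Node n))), ?_, ?_, ?_⟩
  · intro A hA
    rw [mem_image] at hA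
    obtain ⟨v, hv, rfl⟩ := hA
    rw [mem_product, mem_filter, mem_filter] at hv
    refine ⟨by simp, ?_⟩
    rw [coe_singleton, Set.singleton_subset_iff]
    exact ⟨hv.2.2.1, hv.2.2.2, hv.1.2⟩
  · refine card_image_le.trans ?_
    rw [card_product]
    have h1 := rows_card (lv g n c.1) (lv g n (c.1 + 1)) c.2
    have h2 := levels_card (n := n) (lv g n c.1) (lv g n (c.1 + 1))
    have h3 := lv_hi hg c.1 hc
    have h4 : 2 ^ (lv g n (c.1 + 1) - lv g n c.1) ≤ 2 ^ (2 * g) :=
      Nat.pow_le_pow_right (by norm_num) (by omega)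
    unfold Cnt
    rw [Nat.mul_comm (2 * g + 1)]
    exact Nat.mul_le_mul (h1.trans h4) (h2.trans (by omega))
  · rintro F ⟨-, v, hv, h1, h2, h3⟩
    refine ⟨{v}, ?_, ?_⟩
    · rw [mem_image]
      refine ⟨v, ?_, rfl⟩
      rw [mem_product, mem_filter, mem_filter]
      exact ⟨⟨mem_univ _, h3⟩, mem_univ _, h1, h2⟩
    · rw [coe_singleton, Set.singleton_subset_iff]
      exact hv

theorem witness_step {g i top : ℕ} (hg : 0 < g) (hi : i ≤ top)
    (htop : 4 * cbg g * hl g top ≤ n / g)
    (ih : ∀ c : Cell n, c.1 < n / g → ∃ W : Finset (Finset (Node n)),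
      (∀ A ∈ W, A.card = K1 g ^ i ∧ (A : Set (Node n)) ⊆ region g i c) ∧
      W.card ≤ Cnt g i ∧
      ∀ F : Set (Node n), c ∈ SS g F i → ∃ A ∈ W, (A : Set (Node n)) ⊆ F)
    (c : Cell n) :
    ∃ W : Finset (Finset (Node n)),
      (∀ A ∈ W, A.card = K1 g ^ (i + 1) ∧ (A : Set (Node n)) ⊆ region g (i + 1) c) ∧
      W.card ≤ Cnt g (i + 1) ∧
      ∀ F : Set (Node n), c ∈ SS g F (i + 1) → ∃ A ∈ W, (A : Set (Node n)) ⊆ F := by
  classical
  choose! w hw1 hw2 hw3 using ih
  obtain ⟨W, hW⟩ : ∃ W, W = cR g * hl g i := ⟨_, rfl⟩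
  let Y : ℕ × ℕ → Finset (Finset (Node n)) := fun pq =>
    if pq.2 ≤ pq.1 + W then
      ((Finset.Ico pq.1 pq.2 ×ˢ (univ.filter fun y : Rw n =>
        AgOut (lv g n pq.1) (lv g n pq.2) y c.2)).filter (fun d => d.1 < n / g)).biUnion w
    else ∅
  let U : Finset (Finset (Node n)) :=
    (Finset.Icc (c.1 + 1 - W) c.1 ×ˢ Finset.Icc (c.1 + 1) (c.1 + W)).biUnion fun pq =>
      ((Y pq).powersetCard (K1 g)).image (fun T => T.biUnion id)
  have hY : ∀ pq, (Y pq).card ≤ W * 2 ^ (2 * g * W) * Cnt g i := by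
    rintro ⟨p, q⟩
    by_cases hpq : q ≤ p + W
    · have e1 : Y (p, q) = ((Finset.Ico p q ×ˢ (univ.filter fun y : Rw n =>
        AgOut (lv g n p) (lv g n q) y c.2)).filter (fun d => d.1 < n / g)).biUnion w := by
        simp only [Y]
        rw [if_pos hpq]
      rw [e1]
      refine (card_biUnion_le_card_mul _ _ (Cnt g i) ?_).trans ?_
      · intro d hd
        exact hw2 d (mem_filter.1 hd).2
      · refine Nat.mul_le_mul_right _ ((card_le_card (filter_subset _ _)).trans ?_)
        rw [card_product, Nat.card_Ico]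
        have h1 := rows_card (lv g n p) (lv g n q) c.2
        have h2 : 2 ^ (lv g n q - lv g n p) ≤ 2 ^ (2 * g * W) :=
          Nat.pow_le_pow_right (by norm_num) (lv_sub_le hg hpq)
        exact Nat.mul_le_mul (by omega) (h1.trans h2)
    · have e1 : Y (p, q) = ∅ := by
        simp only [Y]
        rw [if_neg hpq]
      rw [e1]
      simp
  refine ⟨U.filter (fun A => A.card = K1 g ^ (i + 1) ∧
    (A : Set (Node n)) ⊆ region g (i + 1) c), ?_, ?_, ?_⟩
  · intro A hA
    exact (mem_filter.1 hA).2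
  · refine (card_le_card (filter_subset _ _)).trans ?_
    refine (card_biUnion_le_card_mul _ _ ((W * 2 ^ (2 * g * W) * Cnt g i) ^ K1 g) ?_).trans ?_
    · intro pq _
      refine card_image_le.trans ?_
      rw [card_powersetCard]
      exact (Nat.choose_le_pow _ _).trans (Nat.pow_le_pow_left (hY pq) _)
    · rw [card_product, Nat.card_Icc, Nat.card_Icc]
      have e1 : Cnt g (i + 1) = W ^ 2 * (W * 2 ^ (2 * g * W) * Cnt g i) ^ K1 g := by
        rw [hW]
        rfl
      rw [e1]
      generalize (W * 2 ^ (2 * g * W) * Cnt g i) ^ K1 g = Z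
      refine Nat.mul_le_mul_right Z ?_
      rw [pow_two]
      exact Nat.mul_le_mul (by omega) (by omega)
  · rintro F ⟨hcF, p, q, h1, h2, h3, h4, h5⟩
    rw [← hW] at h4
    obtain ⟨t, ht, htc⟩ := Set.exists_subset_encard_eq h5.le
    have tfin : t.Finite := Set.finite_of_encard_eq_coe htc
    have hcell : ∀ Q ∈ t, ∃ d : Cell n, d ∈ SS g F i ∧ Q = core g i d ∧ p ≤ Q.s ∧ Q.e ≤ q ∧
        AgOut (lv g n p) (lv g n q) c.2 Q.b := by
      intro Q hQ
      obtain ⟨d, h6, h7⟩ := ht hQ
      exact ⟨d, h6, h7⟩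
    choose! cell hc1 hc2 hc3 hc4 hc5 using hcell
    obtain ⟨s, hs⟩ : ∃ s, s = tfin.toFinset := ⟨_, rfl⟩
    have hst : ∀ Q, Q ∈ s ↔ Q ∈ t := by
      intro Q
      rw [hs, Set.Finite.mem_toFinset]
    have hscard : s.card = KK g := by
      have h6 := tfin.encard_eq_coe_toFinset_card
      rw [htc, ← hs] at h6
      exact_mod_cast h6.symm
    obtain ⟨T, hT1, hT2, hT3⟩ := select
      (fun Q Q' : Core n => ∃ v, v ∈ region g i (cell Q) ∧ v ∈ region g i (cell Q'))
      (fun Q Q' ⟨v, h6, h7⟩ => ⟨v, h7, h6⟩) (K1 g) s (by rw [hscard, KK_eq]) (by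
        intro Q hQ
        have hQt := (hst Q).1 hQ
        refine ⟨{corej g i ((cell Q).1 / (2 * hl g i) - 1) (cell Q).2,
          corej g i ((cell Q).1 / (2 * hl g i)) (cell Q).2,
          corej g i ((cell Q).1 / (2 * hl g i) + 1) (cell Q).2}, card_le_three, ?_, ?_⟩
        · rw [mem_insert, mem_insert, mem_singleton]
          right; left
          rw [← core_eq_corej]
          exact hc2 Q hQt
        · rintro Q' hQ' ⟨v, hv, hv'⟩
          have hQt' := (hst Q').1 hQ'
          rw [mem_insert, mem_insert, mem_singleton]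
          have h6 := conflict hg hi htop (SS_lt (hc1 Q hQt)) (SS_lt (hc1 Q' hQt')) hv hv'
          rw [← hc2 Q' hQt'] at h6
          exact h6)
    have hTt : ∀ Q ∈ T, Q ∈ t := fun Q hQ => (hst Q).1 (hT1 hQ)
    have hA : ∀ Q ∈ T, ∃ A ∈ w (cell Q), (A : Set (Node n)) ⊆ F := fun Q hQ =>
      hw3 (cell Q) (SS_lt (hc1 Q (hTt Q hQ))) F (hc1 Q (hTt Q hQ))
    choose! A hA1 hA2 using hA
    have hA3 : ∀ Q ∈ T, (A Q).card = K1 g ^ i ∧ (A Q : Set (Node n)) ⊆ region g i (cell Q) :=
      fun Q hQ => hw1 (cell Q) (SS_lt (hc1 Q (hTt Q hQ))) (A Q) (hA1 Q hQ)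
    have hdisj : ∀ Q ∈ T, ∀ Q' ∈ T, Q ≠ Q' → Disjoint (A Q) (A Q') := by
      intro Q hQ Q' hQ' hne
      rw [Finset.disjoint_left]
      intro v hv hv'
      exact hT3 Q hQ Q' hQ' hne ⟨v, (hA3 Q hQ).2 hv, (hA3 Q' hQ').2 hv'⟩
    have hwin : ∀ Q ∈ T, p ≤ (cell Q).1 ∧ (cell Q).1 + 1 ≤ q ∧
        AgOut (lv g n p) (lv g n q) (cell Q).2 c.2 := by
      intro Q hQ
      have hQt := hTt Q hQ
      have h6 := core_win hi htop (SS_lt (hc1 Q hQt))
      have h7 := core_agOut g i (cell Q)
      rw [← hc2 Q hQt] at h6 h7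
      exact ⟨(hc3 Q hQt).trans h6.sk, h6.ke.trans (hc4 Q hQt),
        (h7.mono (lv_mono (hc3 Q hQt)) (lv_mono (hc4 Q hQt))).symm.trans (hc5 Q hQt).symm⟩
    refine ⟨T.biUnion A, ?_, ?_⟩
    · rw [mem_filter]
      refine ⟨?_, ?_, ?_⟩
      · simp only [U, mem_biUnion]
        refine ⟨(p, q), ?_, ?_⟩
        · rw [mem_product, mem_Icc, mem_Icc]
          refine ⟨⟨?_, h1⟩, h2, ?_⟩
          · change c.1 + 1 - W ≤ p
            omega
          · change q ≤ c.1 + W
            omega
        · rw [mem_image]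
          refine ⟨T.image A, ?_, ?_⟩
          · rw [mem_powersetCard]
            constructor
            · intro B hB
              obtain ⟨Q, hQ, rfl⟩ := mem_image.1 hB
              simp only [Y]
              rw [if_pos h4, mem_biUnion]
              obtain ⟨h6, h7, h8⟩ := hwin Q hQ
              refine ⟨cell Q, ?_, hA1 Q hQ⟩
              rw [mem_filter, mem_product, mem_Ico, mem_filter]
              exact ⟨⟨⟨h6, h7⟩, mem_univ _, h8⟩, SS_lt (hc1 Q (hTt Q hQ))⟩
            · rw [card_image_of_injOn, hT2]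
              intro Q hQ Q' hQ' hQQ
              by_contra hne
              have h6 := hdisj Q hQ Q' hQ' hne
              rw [← hQQ, disjoint_self] at h6
              have h7 := (hA3 Q hQ).1
              rw [h6] at h7
              have h8 : 0 < K1 g ^ i := Nat.pow_pos (K1_pos g)
              simp at h7
              omega
          · rw [image_biUnion]
            rfl
      · rw [card_biUnion hdisj, sum_congr rfl (fun Q hQ => (hA3 Q hQ).1), sum_const, hT2,
          smul_eq_mul, pow_succ]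
        ring
      · intro v hv
        rw [mem_coe, mem_biUnion] at hv
        obtain ⟨Q, hQ, hv⟩ := hv
        obtain ⟨h6, h7, h8⟩ := hwin Q hQ
        rw [hW] at h4
        exact region_nested h1 h2 h4 h6 h7 h8 ((hA3 Q hQ).2 hv)
    · intro v hv
      rw [mem_coe, mem_biUnion] at hv
      obtain ⟨Q, hQ, hv⟩ := hv
      exact hA2 Q hQ hv

/-- Witness sets for the event that a cell survives `i` sparsifications. -/
theorem witness {g top : ℕ} (hg : 0 < g) (htop : 4 * cbg g * hl g top ≤ n / g) (i : ℕ)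
    (hi : i ≤ top + 1) : ∀ c : Cell n, c.1 < n / g → ∃ W : Finset (Finset (Node n)),
      (∀ A ∈ W, A.card = K1 g ^ i ∧ (A : Set (Node n)) ⊆ region g i c) ∧
      W.card ≤ Cnt g i ∧
      ∀ F : Set (Node n), c ∈ SS g F i → ∃ A ∈ W, (A : Set (Node n)) ⊆ F := by
  induction i with
  | zero => exact fun c hc => witness_zero hg c hc
  | succ i ih => exact fun c _ => witness_step hg (by omega) htop (ih (by omega)) c

end PB

end Pool.Agent.Bfly
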