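import Pool.Agent.Lib.MP_d71b33_lc_h70.Prob
import Pool.Agent.Lib.MP_d71b33_lc_h70.Witness

/-!
# With high probability a K-sparse system of cores exists (MP_d71b33_lc)
-/

namespace Pool.Agent.Bfly

namespace PB

open Finset

/-- exponent of the bound for the probability that a given cell is dead -/
def T0 (g : ℕ) : ℕ := (4 * g + 4) * (cR g * 4)

theorem T_ge (g i : ℕ) : (4 * g + 4) * (cR g * hl g i) ≤ T0 g * (2 * MM g) ^ i := by
  have h1 : T0 g * (2 * MM g) ^ i = (4 * g + 4) * (cR g * hl g i) * 2 ^ i := by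
    unfold T0 hl
    rw [mul_pow]
    ring
  rw [h1]
  exact Nat.le_mul_of_pos_right _ (Nat.pow_pos (by norm_num))

theorem cnt_step {g i : ℕ} {x : ℝ} (hx0 : 0 ≤ x)
    (hx : x ≤ (1 / 2 : ℝ) ^ (T0 g * (2 * MM g) ^ i)) :
    ((cR g * hl g i : ℕ) : ℝ) ^ 2 *
      (((cR g * hl g i : ℕ) : ℝ) * 2 ^ (2 * g * (cR g * hl g i)) * x) ^ K1 g ≤
    (1 / 2 : ℝ) ^ (T0 g * (2 * MM g) ^ (i + 1)) := by
  have hT := T_ge g i
  obtain ⟨W, hW⟩ : ∃ W, W = cR g * hl g i := ⟨_, rfl⟩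
  obtain ⟨T, hTd⟩ : ∃ T, T = T0 g * (2 * MM g) ^ i := ⟨_, rfl⟩
  have e1 : T0 g * (2 * MM g) ^ (i + 1) = 2 * MM g * T := by
    rw [hTd, pow_succ]
    ring
  rw [e1]
  rw [← hTd] at hx hT
  rw [← hW] at hT ⊢
  have hW2 : (W : ℝ) ≤ 2 ^ W := by
    have : W ≤ 2 ^ W := Nat.lt_two_pow_self.le
    exact_mod_cast this
  have hW0 : (0 : ℝ) ≤ W := Nat.cast_nonneg _
  have hMM := MM_pos g
  obtain ⟨k, hk⟩ : ∃ k, k = K1 g := ⟨_, rfl⟩
  have hk4 : k = 4 * MM g := hk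
  rw [← hk]
  have hK : 2 ≤ k := by omega
  have h1 : (W : ℝ) ^ 2 ≤ (2 ^ W) ^ k := by
    calc (W : ℝ) ^ 2 ≤ (2 ^ W) ^ 2 := pow_le_pow_left₀ hW0 hW2 2
      _ ≤ (2 ^ W) ^ k := pow_le_pow_right₀ (one_le_pow₀ (by norm_num)) hK
  have h2 : ((W : ℝ) * 2 ^ (2 * g * W) * x) ^ k ≤
      (2 ^ W * 2 ^ (2 * g * W) * (1 / 2 : ℝ) ^ T) ^ k := by
    refine pow_le_pow_left₀ (by positivity) ?_ _
    refine mul_le_mul ?_ hx hx0 (by positivity)
    exact mul_le_mul_of_nonneg_right hW2 (by positivity)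
  have h3 : (0 : ℝ) ≤ ((W : ℝ) * 2 ^ (2 * g * W) * x) ^ k := by positivity
  refine (mul_le_mul h1 h2 h3 (by positivity)).trans ?_
  rw [← mul_pow]
  have hE : 2 * ((2 * g + 2) * W) ≤ T := by
    have : 2 * ((2 * g + 2) * W) = (4 * g + 4) * W := by ring
    omega
  have e2 : (2 : ℝ) ^ W * (2 ^ W * 2 ^ (2 * g * W) * (1 / 2 : ℝ) ^ T) =
      (1 / 2 : ℝ) ^ (T - (2 * g + 2) * W) := by
    have h4 : T = (T - (2 * g + 2) * W) + (2 * g + 2) * W := by omega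
    have h5 : (1 / 2 : ℝ) ^ T = (1 / 2 : ℝ) ^ (T - (2 * g + 2) * W) *
        (1 / 2 : ℝ) ^ ((2 * g + 2) * W) := by
      rw [← pow_add, ← h4]
    have h6 : (2 : ℝ) ^ W * (2 ^ W * 2 ^ (2 * g * W)) = 2 ^ ((2 * g + 2) * W) := by
      rw [← pow_add, ← pow_add]
      congr 1
      ring
    have h7 : (2 : ℝ) ^ ((2 * g + 2) * W) * (1 / 2 : ℝ) ^ ((2 * g + 2) * W) = 1 := by
      rw [← mul_pow]
      norm_num
    rw [h5]
    calc (2 : ℝ) ^ W * (2 ^ W * 2 ^ (2 * g * W) * ((1 / 2 : ℝ) ^ (T - (2 * g + 2) * W) *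
        (1 / 2 : ℝ) ^ ((2 * g + 2) * W)))
        = (2 : ℝ) ^ W * (2 ^ W * 2 ^ (2 * g * W)) * (1 / 2 : ℝ) ^ ((2 * g + 2) * W) *
          (1 / 2 : ℝ) ^ (T - (2 * g + 2) * W) := by ring
      _ = _ := by rw [h6, h7, one_mul]
  rw [e2, ← pow_mul]
  refine pow_le_pow_of_le_one (by norm_num) (by norm_num) ?_
  have e3 : (T - (2 * g + 2) * W) * k = 2 * MM g * (2 * (T - (2 * g + 2) * W)) := by
    rw [hk4]
    ring
  rw [e3]
  exact Nat.mul_le_mul_left _ (by omega)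

theorem cnt_bound {g : ℕ} {p : ℝ} (h0 : 0 ≤ p)
    (hp : (Cnt g 0 : ℝ) * p ≤ (1 / 2 : ℝ) ^ T0 g) (i : ℕ) :
    (Cnt g i : ℝ) * p ^ (K1 g ^ i) ≤ (1 / 2 : ℝ) ^ (T0 g * (2 * MM g) ^ i) := by
  induction i with
  | zero => simpa using hp
  | succ i ih =>
    have h1 := cnt_step (g := g) (i := i) (x := (Cnt g i : ℝ) * p ^ (K1 g ^ i))
      (by positivity) ih
    refine le_trans (le_of_eq ?_) h1
    have e1 : Cnt g (i + 1) = (cR g * hl g i) ^ 2 *
      ((cR g * hl g i) * 2 ^ (2 * g * (cR g * hl g i)) * Cnt g i) ^ K1 g := rfl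
    rw [e1, pow_succ (K1 g) i, pow_mul p]
    generalize K1 g = k
    push_cast
    rw [mul_assoc, ← mul_pow]
    ring_nf

/-- The probability that some cell survives the last sparsification. -/
theorem prob_bad {g n top : ℕ} (hg : 0 < g) {p : ℝ} (h0 : 0 ≤ p) (h1 : p ≤ 1)
    (hp : (Cnt g 0 : ℝ) * p ≤ (1 / 2 : ℝ) ^ T0 g) (htop : 4 * cbg g * hl g top ≤ n / g)
    (htop' : n / g < 4 * cbg g * hl g (top + 1)) :
    prob n p (fun F => SS g F (top + 1) ≠ ∅) ≤ (1 / 2 : ℝ) ^ (n / g) := by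
  classical
  have hwit := witness (n := n) hg htop (top + 1) le_rfl
  choose! w hw1 hw2 hw3 using hwit
  obtain ⟨m, hm⟩ : ∃ m, m = n / g := ⟨_, rfl⟩
  let U : Finset (Finset (Node n)) := (range m ×ˢ (univ : Finset (Rw n))).biUnion w
  have hU : U.card ≤ m * 2 ^ n * Cnt g (top + 1) := by
    refine (card_biUnion_le_card_mul _ _ (Cnt g (top + 1)) ?_).trans ?_
    · intro c hc
      rw [mem_product, mem_range, hm] at hc
      exact hw2 c hc.1
    · rw [card_product, card_range]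
      simp
  have key := prob_le_card h0 h1 (A := fun F : Set (Node n) => SS g F (top + 1) ≠ ∅)
    (K1 g ^ (top + 1)) U (by
      intro B hB
      simp only [U, mem_biUnion] at hB
      obtain ⟨c, hc, hB⟩ := hB
      rw [mem_product, mem_range, hm] at hc
      exact (hw1 c hc.1 B hB).1) (by
      intro F hF
      obtain ⟨c, hc⟩ := Set.nonempty_iff_ne_empty.2 hF
      obtain ⟨A, hA, hAF⟩ := hw3 c (SS_lt hc) F hc
      refine ⟨A, ?_, hAF⟩
      simp only [U, mem_biUnion]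
      refine ⟨c, ?_, hA⟩
      rw [mem_product, mem_range, hm]
      exact ⟨SS_lt hc, mem_univ _⟩)
  refine key.trans ?_
  have hc0 := cnt_bound h0 hp (top + 1)
  have hpow : (0 : ℝ) ≤ p ^ (K1 g ^ (top + 1)) := by positivity
  have hU' : (U.card : ℝ) ≤ (m : ℝ) * 2 ^ n * Cnt g (top + 1) := by exact_mod_cast hU
  have hm1 : 1 ≤ m := by
    have h2 : 0 < cbg g := by
      have := csm_cbg g
      omega
    have h3 : 0 < 4 * cbg g * hl g top := Nat.mul_pos (Nat.mul_pos (by norm_num) h2) (hl_pos g top)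
    omega
  have hn : n ≤ 2 * g * m := by
    have h2 := lt_mul_div_succ' hg n
    rw [← hm] at h2
    have h3 : g ≤ g * m := Nat.le_mul_of_pos_right g hm1
    have h4 : 2 * g * m = g * m + g * m := by ring
    omega
  have h2m : (m : ℝ) ≤ 2 ^ m := by
    have : m ≤ 2 ^ m := Nat.lt_two_pow_self.le
    exact_mod_cast this
  have h2n : (2 : ℝ) ^ n ≤ 2 ^ (2 * g * m) := pow_le_pow_right₀ (by norm_num) hn
  calc (U.card : ℝ) * p ^ (K1 g ^ (top + 1))
      ≤ (m : ℝ) * 2 ^ n * Cnt g (top + 1) * p ^ (K1 g ^ (top + 1)) :=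
        mul_le_mul_of_nonneg_right hU' hpow
    _ = (m : ℝ) * 2 ^ n * (Cnt g (top + 1) * p ^ (K1 g ^ (top + 1))) := by ring
    _ ≤ (2 ^ m * 2 ^ (2 * g * m)) * (1 / 2 : ℝ) ^ (T0 g * (2 * MM g) ^ (top + 1)) := by
        refine mul_le_mul ?_ hc0 (by positivity) (by positivity)
        exact mul_le_mul h2m h2n (by positivity) (by positivity)
    _ ≤ (2 ^ m * 2 ^ (2 * g * m)) * (1 / 2 : ℝ) ^ ((m + 2 * g * m) + m) := by
        refine mul_le_mul_of_nonneg_left ?_ (by positivity)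
        refine pow_le_pow_of_le_one (by norm_num) (by norm_num) ?_
        have h3 := T_ge g (top + 1)
        have h4 : (4 * g + 4) * (cR g * hl g (top + 1)) =
            2 * (4 * g + 4) * (4 * cbg g * hl g (top + 1)) := by
          unfold cR
          ring
        have h5 : 2 * (4 * g + 4) * m ≤ 2 * (4 * g + 4) * (4 * cbg g * hl g (top + 1)) :=
          Nat.mul_le_mul_left _ (by omega)
        have h6 : 2 * (4 * g + 4) * m = (m + 2 * g * m) + m + (6 * g * m + 6 * m) := by ring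
        omega
    _ = (1 / 2 : ℝ) ^ m := by
        rw [pow_add (1 / 2 : ℝ), ← pow_add (2 : ℝ), ← mul_assoc, ← mul_pow]
        norm_num
    _ = (1 / 2 : ℝ) ^ (n / g) := by rw [hm]

theorem exists_top {g m : ℕ} (h : 4 * cbg g * hl g 0 ≤ m) :
    ∃ top, 4 * cbg g * hl g top ≤ m ∧ m < 4 * cbg g * hl g (top + 1) := by
  by_contra hcon
  push Not at hcon
  have key : ∀ i, 4 * cbg g * hl g i ≤ m := by
    intro i
    induction i with
    | zero => exact h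
    | succ i ih => exact hcon i ih
  have h1 := key m
  have h2 : m < MM g ^ m := by
    refine Nat.lt_pow_self ?_
    have := cR_pos g
    unfold MM
    omega
  have h3 : 0 < cbg g := by
    have := csm_cbg g
    omega
  have h4 : MM g ^ m ≤ 4 * cbg g * hl g m := by
    unfold hl
    calc MM g ^ m = 1 * (1 * MM g ^ m) := by ring
      _ ≤ 4 * cbg g * (4 * MM g ^ m) :=
        Nat.mul_le_mul (by omega) (Nat.mul_le_mul_right _ (by norm_num))
  omega

/-- The probability that a K-sparse system of cores exists is at least `1 - 2 ^ (-n/g)`. -/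
theorem prob_sys {g n : ℕ} (hg : 5 ≤ g) (hK : 2 * KK g < 2 ^ (g - 2)) {p : ℝ} (h0 : 0 ≤ p)
    (h1 : p ≤ 1) (hp : (Cnt g 0 : ℝ) * p ≤ (1 / 2 : ℝ) ^ T0 g)
    (hn : 4 * cbg g * hl g 0 ≤ n / g) :
    1 - (1 / 2 : ℝ) ^ (n / g) ≤
      prob n p (fun F => ∃ S : Sys n, S.F = F ∧ S.g = g ∧ S.K = KK g) := by
  obtain ⟨top, ht1, ht2⟩ := exists_top hn
  have h2 := prob_bad (by omega : 0 < g) h0 h1 hp ht1 ht2
  have h3 := prob_compl (n := n) (p := p)
    (fun F => ∃ S : Sys n, S.F = F ∧ S.g = g ∧ S.K = KK g)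
  have h4 : prob n p (fun F => ¬ ∃ S : Sys n, S.F = F ∧ S.g = g ∧ S.K = KK g) ≤
      prob n p (fun F => SS g F (top + 1) ≠ ∅) := by
    refine prob_mono h0 h1 ?_
    intro F hF hE
    exact hF (exists_sys hg hK ht1 hE)
  linarith

theorem KK32 : 2 * KK 32 < 2 ^ (32 - 2) := by
  unfold KK MM cR cbg tau csm
  norm_num

theorem exists_p0 (g : ℕ) : ∃ p0 : ℝ, 0 < p0 ∧ p0 ≤ 1 ∧
    ∀ p : ℝ, p ≤ p0 → (Cnt g 0 : ℝ) * p ≤ (1 / 2 : ℝ) ^ T0 g := by
  have h1 : (1 : ℝ) ≤ Cnt g 0 := by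
    have : 1 ≤ Cnt g 0 := Nat.mul_pos (by omega) (Nat.pow_pos (by norm_num))
    exact_mod_cast this
  refine ⟨(1 / 2 : ℝ) ^ T0 g / Cnt g 0, by positivity, ?_, ?_⟩
  · rw [div_le_one (by linarith)]
    exact (pow_le_one₀ (by norm_num) (by norm_num)).trans h1
  · intro p hp
    rw [le_div_iff₀ (by linarith)] at hp
    linarith

/-- **Probability part.** With high probability, the random faulty nodes are covered by a
K-sparse system of cores. -/
theorem main_prob : ∃ g K : ℕ, ∃ p0 : ℝ, 0 < p0 ∧ ∀ p : ℝ, 0 ≤ p → p ≤ p0 →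
    (∃ n0 : ℕ, ∀ n, n0 ≤ n → 1 - (1 / 2 : ℝ) ^ (n / g) ≤
      prob n p (fun F => ∃ S : Sys n, S.F = F ∧ S.g = g ∧ S.K = K)) ∧
    Filter.Tendsto (fun n => prob n p (fun F => ∃ S : Sys n, S.F = F ∧ S.g = g ∧ S.K = K))
      Filter.atTop (nhds 1) := by
  obtain ⟨p0, hp0, hp1, hp2⟩ := exists_p0 32
  refine ⟨32, KK 32, p0, hp0, fun p h0 h1 => ?_⟩
  have key : ∀ n, 32 * (4 * cbg 32 * hl 32 0) ≤ n → 1 - (1 / 2 : ℝ) ^ (n / 32) ≤
      prob n p (fun F => ∃ S : Sys n, S.F = F ∧ S.g = 32 ∧ S.K = KK 32) := by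
    intro n hn
    refine prob_sys (by norm_num) KK32 h0 (h1.trans hp1) (hp2 p h1) ?_
    rw [Nat.le_div_iff_mul_le (by norm_num)]
    omega
  refine ⟨⟨_, key⟩, ?_⟩
  have hlim : Filter.Tendsto (fun n : ℕ => 1 - (1 / 2 : ℝ) ^ (n / 32)) Filter.atTop (nhds 1) := by
    have h2 : Filter.Tendsto (fun n : ℕ => n / 32) Filter.atTop Filter.atTop := by
      refine Filter.tendsto_atTop_atTop.2 fun b => ⟨32 * b, fun a ha => ?_⟩
      rw [Nat.le_div_iff_mul_le (by norm_num)]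
      omega
    have h3 := (tendsto_pow_atTop_nhds_zero_of_lt_one (r := (1 / 2 : ℝ)) (by norm_num)
      (by norm_num)).comp h2
    have h4 := h3.const_sub (1 : ℝ)
    rw [sub_zero] at h4
    exact h4
  refine tendsto_of_tendsto_of_tendsto_of_le_of_le' hlim tendsto_const_nhds ?_ ?_
  · exact Filter.eventually_atTop.2 ⟨_, key⟩
  · refine Filter.Eventually.of_forall fun n => ?_
    have h3 := prob_compl (n := n) (p := p)
      (fun F => ∃ S : Sys n, S.F = F ∧ S.g = 32 ∧ S.K = KK 32)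
    have h4 := prob_nonneg (n := n) h0 (h1.trans hp1)
      (fun F => ¬ ∃ S : Sys n, S.F = F ∧ S.g = 32 ∧ S.K = KK 32)
    linarith

end PB

end Pool.Agent.Bfly
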