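import Pool.Agent.Lib.MP_d71b33_lc_h91.Defs

/-!
# Union bounds for random faults (MP_d71b33_lc)
-/

namespace Pool.Agent.Bfly

open Finset

namespace PB

section

variable {V : Type*} [Fintype V] [DecidableEq V]

/-- The weight of a set of faults. -/
noncomputable def wt (p : ℝ) (F : Finset V) : ℝ := p ^ F.card * (1 - p) ^ (Fintype.card V - F.card)

omit [DecidableEq V] in
theorem wt_nonneg {p : ℝ} (h0 : 0 ≤ p) (h1 : p ≤ 1) (F : Finset V) : 0 ≤ wt p F :=
  mul_nonneg (pow_nonneg h0 _) (pow_nonneg (by linarith) _)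

/-- The probability that all nodes of `A` are faulty. -/
theorem sum_superset (p : ℝ) (A : Finset V) :
    ∑ F : Finset V, (if A ⊆ F then wt p F else 0) = p ^ A.card := by
  rw [← Finset.sum_filter]
  have h1 : (univ.filter fun F : Finset V => A ⊆ F) = (Aᶜ.powerset).image (fun B => A ∪ B) := by
    ext F
    simp only [mem_filter, mem_univ, true_and, mem_image, mem_powerset]
    constructor
    · intro h
      refine ⟨F \ A, ?_, Finset.union_sdiff_of_subset h⟩
      intro v hv
      rw [mem_compl]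
      exact (mem_sdiff.1 hv).2
    · rintro ⟨B, -, rfl⟩
      exact subset_union_left
  rw [h1, Finset.sum_image]
  · have h2 : ∀ B ∈ Aᶜ.powerset, wt p (A ∪ B) =
        p ^ A.card * (p ^ B.card * (1 - p) ^ (Aᶜ.card - B.card)) := by
      intro B hB
      have hd : Disjoint A B := by
        rw [Finset.disjoint_left]
        intro v hv hvB
        exact (mem_compl.1 (mem_powerset.1 hB hvB)) hv
      unfold wt
      rw [card_union_of_disjoint hd, pow_add, card_compl, mul_assoc, Nat.sub_sub]
    rw [Finset.sum_congr rfl h2, ← Finset.mul_sum, Finset.sum_pow_mul_eq_add_pow]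
    simp
  · intro B hB B' hB' h
    have hd : ∀ C : Finset V, C ⊆ Aᶜ → (A ∪ C) \ A = C := by
      intro C hC
      rw [union_sdiff_left, Finset.sdiff_eq_self_iff_disjoint, Finset.disjoint_left]
      intro v hv
      exact mem_compl.1 (hC hv)
    rw [← hd B (mem_powerset.1 hB), ← hd B' (mem_powerset.1 hB')]
    simp only at h
    rw [h]

end

variable {n : ℕ} {p : ℝ}

theorem prob_eq (A : Set (Node n) → Prop) :
    prob n p A = ∑ F : Finset (Node n), (open Classical in if A (F : Set (Node n)) then wt p F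
      else 0) := rfl

theorem prob_nonneg (h0 : 0 ≤ p) (h1 : p ≤ 1) (A : Set (Node n) → Prop) : 0 ≤ prob n p A := by
  rw [prob_eq]
  refine sum_nonneg fun F _ => ?_
  split_ifs
  · exact wt_nonneg h0 h1 F
  · exact le_rfl

theorem prob_mono (h0 : 0 ≤ p) (h1 : p ≤ 1) {A B : Set (Node n) → Prop}
    (h : ∀ F, A F → B F) : prob n p A ≤ prob n p B := by
  rw [prob_eq, prob_eq]
  refine sum_le_sum fun F _ => ?_
  by_cases hA : A (F : Set (Node n))
  · rw [if_pos hA, if_pos (h _ hA)]
  · rw [if_neg hA]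
    split_ifs
    · exact wt_nonneg h0 h1 F
    · exact le_rfl

theorem prob_compl (A : Set (Node n) → Prop) :
    prob n p A + prob n p (fun F => ¬ A F) = 1 := by
  rw [prob_eq, prob_eq, ← sum_add_distrib]
  have h := sum_superset (V := Node n) p ∅
  rw [card_empty, pow_zero] at h
  rw [← h]
  refine sum_congr rfl fun F _ => ?_
  by_cases hA : A (F : Set (Node n)) <;> simp [hA]

theorem prob_le_sum (h0 : 0 ≤ p) (h1 : p ≤ 1) {A : Set (Node n) → Prop}
    (W : Finset (Finset (Node n))) (h : ∀ F, A F → ∃ B ∈ W, (B : Set (Node n)) ⊆ F) :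
    prob n p A ≤ ∑ B ∈ W, p ^ B.card := by
  classical
  have h2 : ∑ B ∈ W, p ^ B.card =
      ∑ F : Finset (Node n), ∑ B ∈ W, (if B ⊆ F then wt p F else 0) := by
    rw [sum_comm]
    exact sum_congr rfl fun B _ => (sum_superset p B).symm
  rw [h2, prob_eq]
  refine sum_le_sum fun F _ => ?_
  have h3 : ∀ B ∈ W, 0 ≤ (if B ⊆ F then wt p F else 0) := by
    intro B _
    split_ifs
    · exact wt_nonneg h0 h1 F
    · exact le_rfl
  by_cases hA : A (F : Set (Node n))
  · rw [if_pos hA]
    obtain ⟨B, hB, hBF⟩ := h _ hA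
    have hBF' : B ⊆ F := by exact_mod_cast hBF
    calc wt p F = (if B ⊆ F then wt p F else 0) := by rw [if_pos hBF']
      _ ≤ _ := Finset.single_le_sum h3 hB
  · rw [if_neg hA]
    exact sum_nonneg h3

/-- Union bound with witness sets of equal size. -/
theorem prob_le_card (h0 : 0 ≤ p) (h1 : p ≤ 1) {A : Set (Node n) → Prop} (N : ℕ)
    (W : Finset (Finset (Node n))) (hW : ∀ B ∈ W, B.card = N)
    (h : ∀ F, A F → ∃ B ∈ W, (B : Set (Node n)) ⊆ F) :
    prob n p A ≤ W.card * p ^ N := by
  refine (prob_le_sum h0 h1 W h).trans ?_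
  rw [Finset.sum_congr rfl fun B hB => by rw [hW B hB], Finset.sum_const, nsmul_eq_mul]

end PB

end Pool.Agent.Bfly
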