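import Pool.Agent.Lib.MP_d71b33_lc_h70.Geom
import Pool.Agent.Lib.MP_d71b33_lc_h91.CO

/-!
# Sparsification of the dead cells, construction of the system of cores (MP_d71b33_lc)
-/

namespace Pool.Agent.Bfly

namespace PB

/-! ### Parameters -/

/-- ratio of the scales -/
def MM (g : ℕ) : ℕ := 16 * cR g

/-- half length of scale `i` -/
def hl (g i : ℕ) : ℕ := 4 * MM g ^ i

/-- sparsity constant -/
def KK (g : ℕ) : ℕ := 12 * MM g

theorem cR_pos (g : ℕ) : 0 < cR g := by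
  unfold cR cbg
  omega

theorem MM_pos (g : ℕ) : 0 < MM g := by
  have := cR_pos g
  unfold MM
  omega

theorem hl_pos (g i : ℕ) : 0 < hl g i := by
  have := Nat.pow_pos (n := i) (MM_pos g)
  unfold hl
  omega

theorem four_le_hl (g i : ℕ) : 4 ≤ hl g i := by
  have := Nat.pow_pos (n := i) (MM_pos g)
  unfold hl
  omega

theorem hl_mono {g i j : ℕ} (h : i ≤ j) : hl g i ≤ hl g j :=
  Nat.mul_le_mul_left 4 (Nat.pow_le_pow_right (MM_pos g) h)

theorem csm_even (g : ℕ) : 2 ∣ csm g := ⟨12 * g + 4, by unfold csm; ring⟩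

theorem csm_cbg (g : ℕ) : csm g + 40 ≤ cbg g := by
  unfold cbg
  omega

/-- the largest admissible scales -/
theorem top_ok {g n i top : ℕ} (hi : i ≤ top) (htop : 4 * cbg g * hl g top ≤ n / g) :
    4 * (cbg g * hl g i) ≤ n / g := by
  have h1 : cbg g * hl g i ≤ cbg g * hl g top := Nat.mul_le_mul_left _ (hl_mono hi)
  have h2 : 4 * cbg g * hl g top = 4 * (cbg g * hl g top) := by ring
  omega

theorem csm_mul (g h : ℕ) : csm g * h + 40 * h ≤ cbg g * h := by
  rw [← Nat.add_mul]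
  exact Nat.mul_le_mul_right h (csm_cbg g)

/-! ### Cells and cores -/

variable {n : ℕ}

/-- cell: digit and row -/
abbrev Cell (n : ℕ) : Type := ℕ × Rw n

/-- closed cells which contain a faulty node -/
def dead (g : ℕ) (F : Set (Node n)) : Set (Cell n) :=
  {c | c.1 < n / g ∧ ∃ v ∈ F, lv g n c.1 ≤ v.2.val ∧ v.2.val ≤ lv g n (c.1 + 1) ∧
    AgOut (lv g n c.1) (lv g n (c.1 + 1)) v.1 c.2}

/-- core of scale `i` generated by a cell -/
def core (g i : ℕ) (c : Cell n) : Core n :=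
  ⟨i, (win (n / g) (csm g) (hl g i) c.1).1, (win (n / g) (csm g) (hl g i) c.1).2,
    wr (lv g n (win (n / g) (csm g) (hl g i) c.1).1) (lv g n (win (n / g) (csm g) (hl g i) c.1).2)
      c.2 (fun _ => false)⟩

theorem core_agOut (g i : ℕ) (c : Cell n) :
    AgOut (lv g n (core g i c).s) (lv g n (core g i c).e) (core g i c).b c.2 :=
  agOut_wr _ _

/-- the cells which survive `i` sparsifications -/
def SS (g : ℕ) (F : Set (Node n)) : ℕ → Set (Cell n)
  | 0 => dead g F
  | i + 1 => {c | c ∈ SS g F i ∧ ∃ p q, p ≤ c.1 ∧ c.1 < q ∧ q ≤ n / g ∧ q ≤ p + cR g * hl g i ∧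
      (KK g : ℕ∞) < {Q | ∃ c' ∈ SS g F i, Q = core g i c' ∧ p ≤ Q.s ∧ Q.e ≤ q ∧
        AgOut (lv g n p) (lv g n q) c.2 Q.b}.encard}

theorem SS_lt {g : ℕ} {F : Set (Node n)} {i : ℕ} {c : Cell n} (h : c ∈ SS g F i) :
    c.1 < n / g := by
  induction i with
  | zero => exact h.1
  | succ i ih => exact ih h.1

/-- the system of cores -/
def cors (g : ℕ) (F : Set (Node n)) (top : ℕ) : Set (Core n) :=
  {Q | ∃ i ≤ top, ∃ c ∈ SS g F i, c ∉ SS g F (i + 1) ∧ Q = core g i c}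

theorem core_win {g i top : ℕ} (hi : i ≤ top) (htop : 4 * cbg g * hl g top ≤ n / g) {c : Cell n}
    (hc : c.1 < n / g) :
    WinOK (n / g) (csm g) (hl g i) c.1 (core g i c).s (core g i c).e := by
  refine win_ok (hl_pos g i) (csm_even g) hc ?_
  have h1 := top_ok hi htop
  have h2 := csm_mul g (hl g i)
  have h3 : (2 * csm g + 40) * hl g i = 2 * (csm g * hl g i) + 40 * hl g i := by ring
  omega

theorem sparse_aux {g : ℕ} {F : Set (Node n)} {top : ℕ}
    (htop : 4 * cbg g * hl g top ≤ n / g) (i p q : ℕ) (x : Rw n) (hq : q ≤ n / g)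
    (hpq : q ≤ p + cR g * hl g i) :
    {Q | Q ∈ cors g F top ∧ Q.i = i ∧ p ≤ Q.s ∧ Q.e ≤ q ∧
      AgOut (lv g n p) (lv g n q) x Q.b}.encard ≤ (KK g : ℕ∞) := by
  by_contra hcon
  push Not at hcon
  have hne : {Q | Q ∈ cors g F top ∧ Q.i = i ∧ p ≤ Q.s ∧ Q.e ≤ q ∧
      AgOut (lv g n p) (lv g n q) x Q.b}.Nonempty := by
    rw [← Set.encard_pos]
    exact lt_of_le_of_lt zero_le hcon
  obtain ⟨Q0, ⟨i0, hi0, c0, hc0, hc0', rfl⟩, rfl, h2, h3, h4⟩ := hne
  change q ≤ p + cR g * hl g i0 at hpq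
  apply hc0'
  have hw := core_win hi0 htop (SS_lt hc0)
  have h5 : AgOut (lv g n p) (lv g n q) c0.2 x := by
    refine AgOut.trans ?_ h4.symm
    exact ((core_agOut g i0 c0).mono (lv_mono h2) (lv_mono h3)).symm
  refine ⟨hc0, p, q, h2.trans hw.sk, lt_of_lt_of_le (Nat.lt_of_succ_le hw.ke) h3, hq, hpq, ?_⟩
  refine lt_of_lt_of_le hcon (Set.encard_le_encard ?_)
  rintro Q ⟨⟨i1, hi1, c1, hc1, hc1', rfl⟩, h7, h8, h9, h10⟩
  change i1 = i0 at h7
  subst h7
  exact ⟨c1, hc1, rfl, h8, h9, h5.trans h10⟩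

theorem cover_aux {g : ℕ} {F : Set (Node n)} {top : ℕ}
    (htop : 4 * cbg g * hl g top ≤ n / g) (hE : SS g F (top + 1) = ∅) {c : Cell n}
    (hc : c ∈ dead g F) :
    ∃ Q ∈ cors g F top, Q.s ≤ c.1 ∧ c.1 + 1 ≤ Q.e ∧ AgOut (lv g n Q.s) (lv g n Q.e) c.2 Q.b := by
  have key : ∀ j, c ∈ SS g F (j + 1) ∨ ∃ i ≤ j, c ∈ SS g F i ∧ c ∉ SS g F (i + 1) := by
    intro j
    induction j with
    | zero =>
      by_cases h : c ∈ SS g F (0 + 1)
      · exact Or.inl h
      · exact Or.inr ⟨0, le_rfl, hc, h⟩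
    | succ j ih =>
      rcases ih with h | ⟨i, hi, h⟩
      · by_cases h' : c ∈ SS g F (j + 1 + 1)
        · exact Or.inl h'
        · exact Or.inr ⟨j + 1, le_rfl, h, h'⟩
      · exact Or.inr ⟨i, Nat.le_succ_of_le hi, h⟩
  rcases key top with h | ⟨i, hi, h1, h2⟩
  · rw [hE] at h
    exact h.elim
  · have hw := core_win hi htop (SS_lt h1)
    exact ⟨core g i c, ⟨i, hi, c, h1, h2, rfl⟩, hw.sk, hw.ke, (core_agOut g i c).symm⟩

/-- If no cell survives the last sparsification, then there is a system of cores. -/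
theorem exists_sys {g : ℕ} (hg : 5 ≤ g) (hK : 2 * KK g < 2 ^ (g - 2)) {F : Set (Node n)} {top : ℕ}
    (htop : 4 * cbg g * hl g top ≤ n / g) (hE : SS g F (top + 1) = ∅) :
    ∃ S : Sys n, S.F = F ∧ S.g = g ∧ S.K = KK g := by
  have hm : 0 < n / g := by
    have h1 : 0 < cbg g := by
      have := csm_cbg g
      omega
    have h2 : 0 < 4 * cbg g * hl g top := Nat.mul_pos (Nat.mul_pos (by norm_num) h1) (hl_pos g top)
    omega
  refine ⟨{
    toFrame := frame g n hg hm
    K := KK g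
    M := MM g
    h0 := 4
    top := top
    o := 0
    F := F
    cores := cors g F top
    ty := fun Q => decide (2 * Q.s < n / g)
    h0_big := le_rfl
    M_even := ⟨8 * cR g, by unfold MM; ring⟩
    M_big := ?_
    K_small := hK
    core_top := ?_
    core_lt := ?_
    core_le := ?_
    core_s := ?_
    core_e := ?_
    core_len := ?_
    core_len' := ?_
    ty_true := ?_
    ty_false := ?_
    sparse := ?_
    cover := ?_ }, rfl, rfl, rfl⟩
  · change 16 * cbg g ≤ 16 * (8 * cbg g)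
    omega
  · rintro Q ⟨i, hi, c, hc, hc', rfl⟩
    exact hi
  · rintro Q ⟨i, hi, c, hc, hc', rfl⟩
    have hw := core_win hi htop (SS_lt hc)
    have h1 := hw.sk
    have h2 := hw.ke
    omega
  · rintro Q ⟨i, hi, c, hc, hc', rfl⟩
    exact (core_win hi htop (SS_lt hc)).em
  · rintro Q ⟨i, hi, c, hc, hc', rfl⟩
    rcases (core_win hi htop (SS_lt hc)).hs with h | ⟨h1, h2, h3⟩
    · exact Or.inl h
    · exact Or.inr ⟨h1, h2⟩
  · rintro Q ⟨i, hi, c, hc, hc', rfl⟩
    rcases (core_win hi htop (SS_lt hc)).he with h | ⟨h1, h2, h3⟩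
    · exact Or.inl h
    · exact Or.inr ⟨h1, h2⟩
  · rintro Q ⟨i, hi, c, hc, hc', rfl⟩
    exact (core_win hi htop (SS_lt hc)).len
  · rintro Q ⟨i, hi, c, hc, hc', rfl⟩
    exact (core_win hi htop (SS_lt hc)).len'
  · rintro Q ⟨i, hi, c, hc, hc', rfl⟩ hty
    have hty' : 2 * (core g i c).s < n / g := of_decide_eq_true hty
    have hw := core_win hi htop (SS_lt hc)
    have h1 := top_ok hi htop
    have h2 := csm_mul g (hl g i)
    have h3 := hw.len
    have h4 : (csm g + 8) * hl g i = csm g * hl g i + 8 * hl g i := by ring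
    have h5 : (cbg g + 8) * hl g i = cbg g * hl g i + 8 * hl g i := by ring
    change (core g i c).e + (cbg g + 8) * hl g i ≤ n / g
    omega
  · rintro Q ⟨i, hi, c, hc, hc', rfl⟩ hty
    have hty' : ¬ 2 * (core g i c).s < n / g := of_decide_eq_false hty
    have h1 := top_ok hi htop
    have h2 := csm_mul g (hl g i)
    have h5 : (cbg g + 8) * hl g i = cbg g * hl g i + 8 * hl g i := by ring
    change (cbg g + 8) * hl g i ≤ (core g i c).s
    omega
  · intro i p q x hq hpq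
    exact sparse_aux htop i p q x hq hpq
  · intro v hv k hk h1 h2
    exact cover_aux htop hE (c := (k, v.1)) ⟨hk, v, hv, h1, h2, AgOut.refl _⟩

end PB

end Pool.Agent.Bfly
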